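import Pool.Agent.helper12.TZ.Spec

set_option autoImplicit false

namespace Pool.Agent.TZ

open Pool.Agent.helper58.DC Pool.Agent.DI Pool.Agent.GR Pool.Agent.OB

/-- The key commutation: `h = (v u)⁻¹ (u v)` commutes with `y`. -/
theorem CEN_key {G : Type} [Group G] {y u v b c : G} {H : Subgroup G} (hF : Fr y H)
    (hu : u ∈ H) (hv : v ∈ H) (hb : y⁻¹ * u * y * u⁻¹ = b) (hc : y⁻¹ * v * y * v⁻¹ = c)
    (huc : u * c = c * u) (hvb : v * b = b * v) (hbc : b * c = c * b) : u * v = v * u := by
  have e1 : u * y = y * (b * u) := by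
    rw [← hb]; group
  have e2 : v * y = y * (c * v) := by
    rw [← hc]; group
  have e3 : (u * v) * y = y * (b * c * (u * v)) := by
    calc (u * v) * y = u * (v * y) := by group
      _ = u * (y * (c * v)) := by rw [e2]
      _ = (u * y) * (c * v) := by group
      _ = y * (b * u) * (c * v) := by rw [e1]
      _ = y * (b * (u * c) * v) := by group
      _ = y * (b * (c * u) * v) := by rw [huc]
      _ = y * (b * c * (u * v)) := by group
  have e4 : (v * u) * y = y * (b * c * (v * u)) := by
    calc (v * u) * y = v * (u * y) := by group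
      _ = v * (y * (b * u)) := by rw [e1]
      _ = (v * y) * (b * u) := by group
      _ = y * (c * v) * (b * u) := by rw [e2]
      _ = y * (c * (v * b) * u) := by group
      _ = y * (c * (b * v) * u) := by rw [hvb]
      _ = y * ((c * b) * (v * u)) := by group
      _ = y * (b * c * (v * u)) := by rw [hbc]
  have h1 : (v * u)⁻¹ * (u * v) ∈ H := H.mul_mem (H.inv_mem (H.mul_mem hv hu)) (H.mul_mem hu hv)
  have h2 : (v * u)⁻¹ * (u * v) * y = y * ((v * u)⁻¹ * (u * v)) := by
    have h3 : (v * u)⁻¹ * (y * (b * c)) = y * (v * u)⁻¹ := by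
      have : y * (b * c) = (v * u) * y * (v * u)⁻¹ := by rw [e4]; group
      rw [this]; group
    calc (v * u)⁻¹ * (u * v) * y = (v * u)⁻¹ * ((u * v) * y) := by group
      _ = (v * u)⁻¹ * (y * (b * c * (u * v))) := by rw [e3]
      _ = ((v * u)⁻¹ * (y * (b * c))) * (u * v) := by group
      _ = y * (v * u)⁻¹ * (u * v) := by rw [h3]
      _ = y * ((v * u)⁻¹ * (u * v)) := by group
  have h4 := hF _ h1 h2
  have h5 : v * u * ((v * u)⁻¹ * (u * v)) = v * u * 1 := by rw [h4]
  rw [mul_inv_cancel_left, mul_one] at h5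
  exact h5

theorem CEN (hUAB : UAB_stmt) : CEN_stmt := by
  intro G _ s y H hC hF i u hu hb
  have hmono : Monotone (Ul s y H) :=
    monotone_nat_of_le_succ (fun n => (hUAB G s y H hC hF n).2)
  have hus : u * s = s * u := hC u hu
  -- membership in `Ul (j + 1)`
  have hUH : ∀ j, ∀ v ∈ Ul s y H j, v ∈ H := by
    intro j v hv
    cases j with
    | zero =>
      have : v = 1 := by simpa [Ul] using hv
      rw [this]; exact H.one_mem
    | succ j =>
      exact hv.1
  have key : ∀ j, j ≤ i → ∀ v ∈ Ul s y H j, u * v = v * u := by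
    intro j
    induction j with
    | zero =>
      intro _ v hv
      have : v = 1 := by simpa [Ul] using hv
      rw [this]; simp
    | succ j ih =>
      intro hj v hv
      have ih' := ih (by omega)
      have hvi : v ∈ Ul s y H i := hmono hj hv
      have hvH : v ∈ H := hUH _ v hv
      have hc : y⁻¹ * v * y * v⁻¹ ∈ Ul s y H j ⊔ Subgroup.zpowers s := hv.2.2.2
      have huc : u * (y⁻¹ * v * y * v⁻¹) = (y⁻¹ * v * y * v⁻¹) * u := nx_comm ih' hus _ hc
      have hvb : v * (y⁻¹ * u * y * u⁻¹) = (y⁻¹ * u * y * u⁻¹) * v :=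
        nx_comm (fun w hw => (hUAB G s y H hC hF i).1 v hvi w hw) (hC v hvH) _ hb
      have hci : y⁻¹ * v * y * v⁻¹ ∈ Ul s y H i ⊔ Subgroup.zpowers s :=
        (sup_le_sup_right (hmono (show j ≤ i by omega)) _) hc
      have hbc : (y⁻¹ * u * y * u⁻¹) * (y⁻¹ * v * y * v⁻¹) =
          (y⁻¹ * v * y * v⁻¹) * (y⁻¹ * u * y * u⁻¹) := by
        -- elements of `Ul i ⊔ ⟨s⟩` commute
        refine nx_comm (s := s) (U := Ul s y H i) ?_ ?_ _ hci
        · intro w hw
          exact (nx_comm (fun w' hw' => (hUAB G s y H hC hF i).1 w hw w' hw') (hC w (hUH _ w hw)) _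
            hb).symm
        · exact (nx_comm (s := s) (U := Ul s y H i) (u := s)
            (fun w hw => (hC w (hUH _ w hw)).symm) rfl _ hb).symm
      exact CEN_key hF hu hvH rfl rfl huc hvb hbc
  exact ⟨hu, key i le_rfl, hus, hb⟩

end Pool.Agent.TZ
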